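import Pool.Agent.Helper267_mocanu.Main
import Pool.Agent.Helper267_mocanu.T17

/-!
# Sharp coefficient bounds for alpha-convex (Mocanu) functions

For every `0 < α < 1` and every `n ≥ 2` the largest value of `|a_n|` over the class `M(α)` is the
`n`-th coefficient of the alpha-Koebe function, given here also by an explicit recursion.
-/

set_option autoImplicit false

noncomputable section

namespace Pool.Agent.Results.MP_1f2de8_an.AlphaKoebe

open Complex Set Metric Topology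

/-- The class `S`: analytic and univalent in the unit disc, `f(0) = 0`, `f'(0) = 1`. -/
def ClassS : Set (ℂ → ℂ) :=
  {f | DifferentiableOn ℂ f (ball 0 1) ∧ InjOn f (ball 0 1) ∧ f 0 = 0 ∧ deriv f 0 = 1}

/-- The class `M(α)` of alpha-convex functions (at `z = 0` the bracket has the limit `1 > 0`). -/
def AlphaConvex (α : ℝ) : Set (ℂ → ℂ) :=
  {f | f ∈ ClassS ∧ ∀ z ∈ ball (0 : ℂ) 1, z ≠ 0 →
    0 < ((α : ℂ) * (1 + z * deriv (deriv f) z / deriv f z) +
      (1 - (α : ℂ)) * (z * deriv f z / f z)).re}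

/-- The Taylor coefficient `a_n` of `f` at `0`. -/
def coeff (f : ℂ → ℂ) (n : ℕ) : ℂ := iteratedDeriv n f 0 / (n.factorial : ℂ)

/-- The alpha-Koebe function near the origin (principal branches):
`z ((1/α) ∫_0^1 τ^(1/α - 1) (1 - τ z)^(-2/α) dτ)^α`. -/
def alphaKoebe (α : ℝ) (z : ℂ) : ℂ :=
  z * (((1 / α : ℝ) : ℂ) * ∫ τ in (0 : ℝ)..1,
    ((τ ^ (1 / α - 1) : ℝ) : ℂ) * (1 - (τ : ℂ) * z) ^ ((-(2 / α) : ℝ) : ℂ)) ^ (α : ℂ)

/-- `q_0 = 1` and `(α n + 1) q_n = 2 + ∑_{j=1}^{n-1} q_j (2 - q_{n-j})` for `n ≥ 1`. -/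
def qSeq (α : ℝ) : ℕ → ℝ
  | 0 => 1
  | (n + 1) => (2 + ∑ j : Fin n, qSeq α (j + 1) * (2 - qSeq α (n - j))) / (α * (n + 1) + 1)
  termination_by n => n
  decreasing_by
    · have := j.2; omega
    · have := j.2; omega

/-- `A_0 = 0`, `A_1 = 1` and `(n - 1) A_n = ∑_{j=1}^{n-1} q_j A_{n-j}` for `n ≥ 2`. -/
def sharpBound (α : ℝ) : ℕ → ℝ
  | 0 => 0
  | 1 => 1
  | (n + 2) => (∑ j : Fin (n + 1), qSeq α (j + 1) * sharpBound α (n + 1 - j)) / (n + 1)
  termination_by n => n
  decreasing_by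
    · omega

theorem qSeq_eq (α : ℝ) (n : ℕ) : qSeq α n = Mocanu.qc α n := by
  induction n using Nat.strong_induction_on with
  | _ n ih =>
    rcases n with _ | n
    · rw [qSeq, Mocanu.qc]
    · rw [qSeq, Mocanu.qc]
      congr 2
      apply Finset.sum_congr rfl
      intro j _
      have hj := j.2
      rw [ih (j + 1) (by omega), ih (n - j) (by omega)]

theorem sharpBound_eq (α : ℝ) (n : ℕ) : sharpBound α (n + 1) = Mocanu.Kc α n := by
  induction n using Nat.strong_induction_on with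
  | _ n ih =>
    rcases n with _ | n
    · rw [sharpBound, Mocanu.Kc]
    · rw [sharpBound, Mocanu.Kc]
      congr 1
      apply Finset.sum_congr rfl
      intro j _
      have hj := j.2
      rw [qSeq_eq]
      have e : n + 1 - (j : ℕ) = (n - j) + 1 := by omega
      rw [e, ih (n - j) (by omega)]

theorem class_eq (α : ℝ) : AlphaConvex α = Mocanu.MClass α := by
  ext f
  simp only [AlphaConvex, ClassS, Mocanu.MClass, mem_setOf_eq, and_assoc]

/-- For `0 < α < 1` the alpha-Koebe function extends to a member `k` of `M(α)`, and for every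
`n ≥ 2` its coefficient, given by the recursion `sharpBound`, is the largest value of `|a_n|`
over `M(α)`. -/
theorem result (α : ℝ) (h0 : 0 < α) (h1 : α < 1) :
    ∃ k ∈ AlphaConvex α, k =ᶠ[𝓝 0] alphaKoebe α ∧
      ∀ n : ℕ, 2 ≤ n → coeff k n = ((sharpBound α n : ℝ) : ℂ) ∧
        IsGreatest {r : ℝ | ∃ f ∈ AlphaConvex α, r = ‖coeff f n‖} (sharpBound α n) := by
  have hb : 1 < 1 / α := by rw [lt_div_iff₀ h0]; linarith
  have hab : 1 / (1 / α) = α := by field_simp
  have hv := Mocanu.vall (1 / α) hb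
  have hQ := Mocanu.t15a Mocanu.t3a Mocanu.t4 (1 / α) _ hv
  have hmem := Mocanu.t15b (1 / α) _ hv hQ
  have h17 := Mocanu.t17 (1 / α) hb hv
  have h16 := Mocanu.t16a (1 / α) _ hv
  rw [hab] at hmem h16
  refine ⟨fun z => z * Mocanu.kap (1 / α) (Mocanu.vf (1 / α)) (1 / (1 - z)), ?_, ?_, ?_⟩
  · rw [class_eq]; exact hmem
  · refine h17.trans (Filter.Eventually.of_forall fun z => ?_)
    simp only [alphaKoebe, hab]
    have e : (2 : ℝ) * (1 / α) = 2 / α := by ring
    rw [e]
  · intro n hn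
    obtain ⟨m, rfl⟩ : ∃ m, n = m + 1 := ⟨n - 1, by omega⟩
    constructor
    · obtain ⟨U, hU, hPU, -, hkd⟩ := hv.kb.nbhd
      have hgeo : (fun z : ℂ => 1 / (1 - z)) ∈ Mocanu.PP := by
        have := (Mocanu.t14b.2 1 (by simp)).1
        simpa using this
      have hd : DifferentiableOn ℂ
          (fun z => Mocanu.kap (1 / α) (Mocanu.vf (1 / α)) (1 / (1 - z))) (ball 0 1) :=
        hkd.comp hgeo.1 (fun z hz => hPU
          (show (1:ℝ) / 2 ≤ (1 / (1 - z) : ℂ).re from le_of_lt (hgeo.2.2 z hz)))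
      rw [coeff, Mocanu.iter_mul_id _ hd, (h16 m).2, sharpBound_eq]
    · rw [class_eq, sharpBound_eq]
      have := Mocanu.final α h0 h1 (m + 1) hn
      simpa [coeff] using this

end Pool.Agent.Results.MP_1f2de8_an.AlphaKoebe
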